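import Pool.Agent.Helper84.BRDFinal

set_option autoImplicit false

namespace Pool.Agent.Results.MP_16b0ee_an.BoundedRotation

/-- The strong form of Marshall's conjecture (full range `0 < a < 1`, every `R > 1`, uniform
constant) for the conformal maps `ψ` of class `Σ` whose `log ψ'` has the form `G₁ + i G₂ + u`,
where the circle means of `|Re (z G₁'(z))|` and `|Re (z G₂'(z))|` are at most `K` and `u` takes
values in a (rotated) strip of width `π`. -/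
theorem result (K a : ℝ) (ha0 : 0 < a) (ha1 : a < 1) :
    ∃ C : ℝ, ∀ R : ℝ, 1 < R → ∀ ψ h : ℂ → ℂ,
      DifferentiableOn ℂ ψ {z : ℂ | 1 < ‖z‖} →
      Set.InjOn ψ {z : ℂ | 1 < ‖z‖} →
      (∃ b : ℂ, Filter.Tendsto (fun z => ψ z - z) (Bornology.cobounded ℂ) (nhds b)) →
      DifferentiableOn ℂ h {z : ℂ | 1 < ‖z‖} →
      (∀ z : ℂ, 1 < ‖z‖ → Complex.exp (h z) = deriv ψ z) →
      Filter.Tendsto h (Bornology.cobounded ℂ) (nhds 0) →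
      ∀ G₁ G₂ u : ℂ → ℂ,
      DifferentiableOn ℂ G₁ {z : ℂ | 1 < ‖z‖} →
      DifferentiableOn ℂ G₂ {z : ℂ | 1 < ‖z‖} →
      DifferentiableOn ℂ u {z : ℂ | 1 < ‖z‖} →
      Filter.Tendsto G₁ (Bornology.cobounded ℂ) (nhds 0) →
      Filter.Tendsto G₂ (Bornology.cobounded ℂ) (nhds 0) →
      (∀ r : ℝ, 1 < r → ∫ θ in (0:ℝ)..(2 * Real.pi),
        |(((r:ℂ) * Complex.exp ((θ:ℂ) * Complex.I)) *
          deriv G₁ ((r:ℂ) * Complex.exp ((θ:ℂ) * Complex.I))).re| ≤ 2 * Real.pi * K) →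
      (∀ r : ℝ, 1 < r → ∫ θ in (0:ℝ)..(2 * Real.pi),
        |(((r:ℂ) * Complex.exp ((θ:ℂ) * Complex.I)) *
          deriv G₂ ((r:ℂ) * Complex.exp ((θ:ℂ) * Complex.I))).re| ≤ 2 * Real.pi * K) →
      (∃ e : ℂ, ‖e‖ = 1 ∧ ∃ s : ℝ, ∀ z : ℂ, 1 < ‖z‖ → |(e * u z).im - s| ≤ Real.pi / 2) →
      (∀ z : ℂ, 1 < ‖z‖ → h z = G₁ z + Complex.I * G₂ z + u z) →
      (1 / (2 * Real.pi)) * ∫ θ in (0:ℝ)..(2 * Real.pi),
        Real.exp (a * ‖h ((R : ℂ) * Complex.exp ((θ : ℂ) * Complex.I))‖ ^ 2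
          / Real.log (R ^ 2 / (R ^ 2 - 1))) ≤ C :=
  Pool.Agent.Helper84.BRD.classical K a ha0 ha1

end Pool.Agent.Results.MP_16b0ee_an.BoundedRotation
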