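import Pool.Agent.Helper86.CJ.Final

set_option autoImplicit false

namespace Pool.Agent.Results.MP_16b0ee_an.CarlesonJones

open Pool.Agent.Helper86.CJ

/-- The circle means of the derivative for the whole class Sigma: exponent `2/5`. -/
theorem result :
    ∃ C : ℝ, ∀ ψ : ℂ → ℂ,
      DifferentiableOn ℂ ψ {z : ℂ | 1 < ‖z‖} →
      Set.InjOn ψ {z : ℂ | 1 < ‖z‖} →
      (∃ b : ℂ, Filter.Tendsto (fun z => ψ z - z) (Bornology.cobounded ℂ) (nhds b)) →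
      ∀ R : ℝ, 1 < R →
        (1 / (2 * Real.pi)) * ∫ θ in (0:ℝ)..(2 * Real.pi),
          ‖deriv ψ ((R : ℂ) * Complex.exp ((θ : ℂ) * Complex.I))‖
          ≤ C * (R ^ 2 / (R ^ 2 - 1)) ^ (2 / 5 : ℝ) := by
  obtain ⟨C, _, hm⟩ := final
  exact ⟨C, fun ψ h1 h2 h3 R hR => (hm ψ h1 h2 h3).1 R hR⟩

end Pool.Agent.Results.MP_16b0ee_an.CarlesonJones
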