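import Pool.Agent.Helper39.HR.XB

set_option autoImplicit false

namespace Pool.Agent.Helper39.Slots.FiveNinths

open Pool.Agent.Helper39.HR Pool.Agent.Helper22.Half

/-- The inequality of the strong Marshall conjecture for the whole class Sigma and every exponent
`a < 5/9`, uniformly in `R > 1`. -/
theorem result :
    ∀ a : ℝ, 0 < a → a < 5 / 9 → ∃ C : ℝ, ∀ R : ℝ, 1 < R → ∀ ψ h : ℂ → ℂ,
      DifferentiableOn ℂ ψ {z : ℂ | 1 < ‖z‖} →
      Set.InjOn ψ {z : ℂ | 1 < ‖z‖} →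
      (∃ b : ℂ, Filter.Tendsto (fun z => ψ z - z) (Bornology.cobounded ℂ) (nhds b)) →
      DifferentiableOn ℂ h {z : ℂ | 1 < ‖z‖} →
      (∀ z : ℂ, 1 < ‖z‖ → Complex.exp (h z) = deriv ψ z) →
      Filter.Tendsto h (Bornology.cobounded ℂ) (nhds 0) →
      (1 / (2 * Real.pi)) * ∫ θ in (0:ℝ)..(2 * Real.pi),
        Real.exp (a * ‖h ((R : ℂ) * Complex.exp ((θ : ℂ) * Complex.I))‖ ^ 2
          / Real.log (R ^ 2 / (R ^ 2 - 1))) ≤ C := by
  intro a ha ha1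
  obtain ⟨C, _, hm⟩ := mInt9 xbound ha ha1
  exact ⟨C, fun R hR ψ h h1 h2 h3 h4 h5 h6 => hm R hR ψ h ⟨h1, h2, h3, h4, h5, h6⟩⟩

end Pool.Agent.Helper39.Slots.FiveNinths
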