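import Pool.Agent.Helper39.HR.XB

set_option autoImplicit false

namespace Pool.Agent.Helper39.Slots.QuasiconformalRange59

open Pool.Agent.Helper39.HR Pool.Agent.Helper22.Half

/-- The inequality of the strong Marshall conjecture, uniformly in `R > 1`, for every member `ψ l`,
`‖l‖ ≤ k`, of a holomorphic family in Sigma over the unit disc which starts at the identity, and
every exponent `a < 5 / (9 k²)` (so for all `a < 1` when `k ≤ √5 / 3`). -/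
theorem result :
    ∀ k a : ℝ, 0 < k → k < 1 → 0 < a → a < 5 / (9 * k ^ 2) → ∃ C : ℝ, ∀ R : ℝ, 1 < R →
      ∀ ψ h : ℂ → ℂ → ℂ,
      (∀ l : ℂ, ‖l‖ < 1 →
        DifferentiableOn ℂ (ψ l) {z : ℂ | 1 < ‖z‖} ∧
        Set.InjOn (ψ l) {z : ℂ | 1 < ‖z‖} ∧
        (∃ b : ℂ, Filter.Tendsto (fun z => ψ l z - z) (Bornology.cobounded ℂ) (nhds b)) ∧
        DifferentiableOn ℂ (h l) {z : ℂ | 1 < ‖z‖} ∧
        (∀ z : ℂ, 1 < ‖z‖ → Complex.exp (h l z) = deriv (ψ l) z) ∧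
        Filter.Tendsto (h l) (Bornology.cobounded ℂ) (nhds 0)) →
      (∀ z : ℂ, 1 < ‖z‖ → DifferentiableOn ℂ (fun l => ψ l z) {l : ℂ | ‖l‖ < 1}) →
      (∀ z : ℂ, 1 < ‖z‖ → ψ 0 z = z) →
      ∀ l : ℂ, ‖l‖ ≤ k →
      (1 / (2 * Real.pi)) * ∫ θ in (0:ℝ)..(2 * Real.pi),
        Real.exp (a * ‖h l ((R : ℂ) * Complex.exp ((θ : ℂ) * Complex.I))‖ ^ 2
          / Real.log (R ^ 2 / (R ^ 2 - 1))) ≤ C := by
  intro k a hk0 hk1 ha hak
  have hk2 : 0 < 9 * k ^ 2 := by positivity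
  have hak' : a * k ^ 2 < 5 / 9 := by
    rw [lt_div_iff₀ hk2] at hak
    linarith
  obtain ⟨C, _, hm⟩ := mInt_family9 xbound hk0 hk1 ha hak'
  refine ⟨C, fun R hR ψ h hmem hhol hbase l hl => ?_⟩
  have hball : Metric.ball (0:ℂ) 1 = {l : ℂ | ‖l‖ < 1} := by
    ext l
    simp
  refine hm R hR ψ h ⟨?_, ?_, hbase⟩ l hl
  · intro l' hl'
    rw [hball] at hl'
    obtain ⟨h1, h2, h3, h4, h5, h6⟩ := hmem l' hl'
    exact ⟨h1, h2, h3, h4, h5, h6⟩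
  · intro z hz
    rw [hball]
    exact hhol z hz

end Pool.Agent.Helper39.Slots.QuasiconformalRange59
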